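import Pool.Agent.H76R.Y

set_option autoImplicit false
set_option linter.unusedSectionVars false

/-! Invertible matrices `A` over integral group rings of arbitrary groups and their distance to
`(A*)⁻¹`: the classes in the Whitehead group of the matrices for which all rows of `A - (A*)⁻¹` have
squared norm at most four, and the sharp bounds of the operator norms below which the class is zero. -/

namespace Pool.Agent.Results.MP_8f66f0_al.AdjointInverseGap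

open Matrix

section defs

variable {Γ : Type} [Group Γ] {κ : Type}

/-- the squared norm in `ℓ²(Γ)` of an element of `ℤΓ`: the sum of the squares of its coefficients -/
def sqNorm (x : MonoidAlgebra ℤ Γ) : ℤ := ∑ g ∈ x.coeff.support, x.coeff g ^ 2

/-- the adjoint (conjugate transpose) of a matrix over `ℤΓ`, for the involution `g ↦ g⁻¹` -/
noncomputable def adjoint (A : Matrix κ κ (MonoidAlgebra ℤ Γ)) : Matrix κ κ (MonoidAlgebra ℤ Γ) :=
  Matrix.of fun i j => MonoidAlgebra.mapDomain (fun g => g⁻¹) (A j i)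

variable [Fintype κ] [DecidableEq κ]

/-- the matrix `A - (A⁻¹)* = A - (A*)⁻¹` of an invertible matrix `A` -/
noncomputable def defect (A : (Matrix κ κ (MonoidAlgebra ℤ Γ))ˣ) :
    Matrix κ κ (MonoidAlgebra ℤ Γ) :=
  (A : Matrix κ κ (MonoidAlgebra ℤ Γ)) - adjoint (↑A⁻¹ : Matrix κ κ (MonoidAlgebra ℤ Γ))

/-- all rows of `A - (A*)⁻¹` have squared norm at most four -/
def ShortRows (A : (Matrix κ κ (MonoidAlgebra ℤ Γ))ˣ) : Prop :=
  ∀ i, ∑ j, sqNorm (defect A i j) ≤ 4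

/-- all columns of `A - (A*)⁻¹` have squared norm at most four -/
def ShortCols (A : (Matrix κ κ (MonoidAlgebra ℤ Γ))ˣ) : Prop :=
  ∀ j, ∑ i, sqNorm (defect A i j) ≤ 4

/-- The operator `x ↦ x M` on `ℓ²(Γ)^κ` has norm at most `c`: this is the inequality of the norms for
all finitely supported real row vectors `x`. -/
def OpNormLE (M : Matrix κ κ (MonoidAlgebra ℤ Γ)) (c : ℝ) : Prop :=
  0 ≤ c ∧ ∀ x : κ → MonoidAlgebra ℝ Γ,
    ∑ j, ∑ g ∈ ((x ᵥ* M.map (MonoidAlgebra.mapRingHom Γ (Int.castRingHom ℝ))) j).coeff.support,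
      ((x ᵥ* M.map (MonoidAlgebra.mapRingHom Γ (Int.castRingHom ℝ))) j).coeff g ^ 2
      ≤ c ^ 2 * ∑ j, ∑ g ∈ (x j).coeff.support, (x j).coeff g ^ 2

/-- the square matrix `x` over `ℤΓ`, stabilised by an identity block, is the unit `u` on one diagonal
entry times a product of commutators of invertible matrices: `[x] = [u]` in `K₁(ℤΓ)` -/
def ClassOfUnit (x : Matrix κ κ (MonoidAlgebra ℤ Γ)) (u : MonoidAlgebra ℤ Γ) : Prop :=
  ∃ (m : ℕ) (C : (Matrix (κ ⊕ Fin (m + 1)) (κ ⊕ Fin (m + 1)) (MonoidAlgebra ℤ Γ))ˣ),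
    C ∈ commutator (Matrix (κ ⊕ Fin (m + 1)) (κ ⊕ Fin (m + 1)) (MonoidAlgebra ℤ Γ))ˣ ∧
    Matrix.fromBlocks x 0 0 (1 : Matrix (Fin (m + 1)) (Fin (m + 1)) (MonoidAlgebra ℤ Γ)) =
      Matrix.diagonal (fun i : κ ⊕ Fin (m + 1) => if i = Sum.inr (0 : Fin (m + 1)) then u else 1) *
        (↑C : Matrix (κ ⊕ Fin (m + 1)) (κ ⊕ Fin (m + 1)) (MonoidAlgebra ℤ Γ))

/-- the class in `Wh(Γ)` is zero (the form of the frozen statement) -/
def ZeroInWh (x : Matrix κ κ (MonoidAlgebra ℤ Γ)) : Prop :=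
  ∃ (g : Γ) (ε : ℤˣ), ClassOfUnit x (MonoidAlgebra.single g ((ε : ℤ)))

/-- `A` and `B` have the same class in `Wh(Γ)`: the class of `A ⊕ B⁻¹` is zero. -/
def SameClass (A : (Matrix κ κ (MonoidAlgebra ℤ Γ))ˣ) {μ : Type} [Fintype μ] [DecidableEq μ]
    (B : (Matrix μ μ (MonoidAlgebra ℤ Γ))ˣ) : Prop :=
  ZeroInWh (fromBlocks A.val 0 0 B⁻¹.val)

end defs

/-- the group of units of `ℤΓ` generated by the units `± g` and the units `t + t⁻¹ - 1`, `t⁵ = 1` -/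
noncomputable def pentagonUnits (Γ : Type) [Group Γ] : Subgroup (MonoidAlgebra ℤ Γ)ˣ :=
  Subgroup.closure {u | (∃ (g : Γ) (ε : ℤˣ), u.val = MonoidAlgebra.single g ((ε : ℤ))) ∨
    ∃ t : Γ, t ^ 5 = 1 ∧ u.val = MonoidAlgebra.single t 1 + MonoidAlgebra.single t⁻¹ 1 - 1}

section aux

open TH57.Thr TH6.LF Pool.Agent.Y75.Th Pool.Agent.H76R

variable {Γ : Type} [Group Γ] {κ : Type} [Fintype κ] [DecidableEq κ]

theorem pentagonUnits_eq : pentagonUnits Γ = U5 Γ := by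
  have hneg : ∀ u : (MonoidAlgebra ℤ Γ)ˣ, ∀ V : Subgroup (MonoidAlgebra ℤ Γ)ˣ,
      (-1 : (MonoidAlgebra ℤ Γ)ˣ) ∈ V → -u ∈ V → u ∈ V := by
    intro u V h1 h2
    have : u = (-1) * (-u) := by simp
    rw [this]
    exact mul_mem h1 h2
  have hm1 : ((-1 : (MonoidAlgebra ℤ Γ)ˣ) : MonoidAlgebra ℤ Γ)
      = MonoidAlgebra.single 1 (((-1 : ℤˣ) : ℤ)) := by
    have : (((-1 : ℤˣ) : ℤ)) = -1 := by norm_num
    rw [this, Units.val_neg, Units.val_one, MonoidAlgebra.single_neg, MonoidAlgebra.one_def]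
  apply le_antisymm
  · apply (Subgroup.closure_le _).2
    rintro u (hu | ⟨t, h5, hu⟩)
    · exact TU_le_U5 hu
    · apply hneg u _ (TU_le_U5 ⟨1, -1, hm1⟩)
      apply pt_mem_U5 t h5
      rw [Units.val_neg, hu]
      unfold pt
      rw [MonoidAlgebra.one_def]
      abel
  · apply (Subgroup.closure_le _).2
    rintro u (hu | ⟨t, h5, hu⟩)
    · exact Subgroup.subset_closure (Or.inl hu)
    · apply hneg u _ (Subgroup.subset_closure (Or.inl ⟨1, -1, hm1⟩))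
      apply Subgroup.subset_closure
      refine Or.inr ⟨t, h5, ?_⟩
      rw [Units.val_neg, hu]
      unfold pt
      rw [MonoidAlgebra.one_def]
      abel

theorem zero_of_TT {A : (Matrix κ κ (MonoidAlgebra ℤ Γ))ˣ} (h : TT (TU Γ) A) :
    ZeroInWh A.val := by
  obtain ⟨m, u, C, ⟨g, ε, hu⟩, hC, h1⟩ := TT_form A h
  refine ⟨g, ε, m, C, hC, ?_⟩
  rw [← hu]; exact h1

theorem TT_of_zero {A : (Matrix κ κ (MonoidAlgebra ℤ Γ))ˣ} (h : ZeroInWh A.val) :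
    TT (TU Γ) A := by
  obtain ⟨g, ε, m, C, hC, h1⟩ := h
  have hε : (ε : ℤ) * (ε : ℤ) = 1 := by
    rcases Int.units_eq_one_or ε with rfl | rfl <;> norm_num
  exact TT_of_form A m (sgu g ε hε) C (sgu_mem g ε hε) hC h1

theorem unit_of_TT5 {A : (Matrix κ κ (MonoidAlgebra ℤ Γ))ˣ} (h : TT (U5 Γ) A) :
    ∃ u ∈ pentagonUnits Γ, ClassOfUnit A.val u.val := by
  obtain ⟨m, u, C, hu, hC, h1⟩ := TT_form A h
  exact ⟨u, by rw [pentagonUnits_eq]; exact hu, m, C, hC, h1⟩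

theorem TT5_of_unit {A : (Matrix κ κ (MonoidAlgebra ℤ Γ))ˣ}
    (h : ∃ u ∈ pentagonUnits Γ, ClassOfUnit A.val u.val) : TT (U5 Γ) A := by
  obtain ⟨u, hu, m, C, hC, h1⟩ := h
  rw [pentagonUnits_eq] at hu
  exact TT_of_form A m u C hu hC h1

theorem sameClass_iff {μ : Type} [Fintype μ] [DecidableEq μ]
    (A : (Matrix κ κ (MonoidAlgebra ℤ Γ))ˣ) (B : (Matrix μ μ (MonoidAlgebra ℤ Γ))ˣ) :
    SameClass A B ↔ TT (TU Γ) (blk A B⁻¹) :=
  ⟨fun h => TT_of_zero (A := blk A B⁻¹) h, fun h => zero_of_TT h⟩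

theorem sqNorm_eq (x : MonoidAlgebra ℤ Γ) : sqNorm x = nsq x := rfl

theorem rows_iff (A : (Matrix κ κ (MonoidAlgebra ℤ Γ))ˣ) : ShortRows A ↔
    ∀ i, N (fun j => ((A : Matrix κ κ (MonoidAlgebra ℤ Γ))
      - adj (↑A⁻¹ : Matrix κ κ (MonoidAlgebra ℤ Γ))) i j) ≤ 4 := Iff.rfl

theorem cols_iff (A : (Matrix κ κ (MonoidAlgebra ℤ Γ))ˣ) : ShortCols A ↔
    ∀ i, N (fun j => ((A : Matrix κ κ (MonoidAlgebra ℤ Γ))
      - adj (↑A⁻¹ : Matrix κ κ (MonoidAlgebra ℤ Γ))) j i) ≤ 4 := Iff.rfl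

theorem TT5_rows {A : (Matrix κ κ (MonoidAlgebra ℤ Γ))ˣ} (h : ShortRows A) : TT (U5 Γ) A :=
  TT_rows UC_U5 A h (Good_U5 _ _)

theorem TT5_cols {A : (Matrix κ κ (MonoidAlgebra ℤ Γ))ˣ} (h : ShortCols A) : TT (U5 Γ) A :=
  TT_cols A h

theorem norm_iff (M : Matrix κ κ (MonoidAlgebra ℤ Γ)) (c : ℝ) :
    OpNormLE M c ↔ 0 ≤ c ∧ NormLE M c := Iff.rfl

theorem um_nonzero : ¬ ZeroInWh (um : Matrix (Fin 1) (Fin 1) (MonoidAlgebra ℤ C5)) := by
  rintro ⟨g, ε, m, C, hC, h⟩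
  exact um_nontrivial ⟨m, g, ε, C, hC, h⟩

end aux

open TH57.Thr TH6.LF Pool.Agent.Y75.Th Pool.Agent.H76R in
theorem result :
    (∀ (Γ : Type) [Group Γ] (κ : Type) [Fintype κ] [DecidableEq κ]
      (A : (Matrix κ κ (MonoidAlgebra ℤ Γ))ˣ),
      [∃ (μ : Type) (_ : Fintype μ) (_ : DecidableEq μ) (B : (Matrix μ μ (MonoidAlgebra ℤ Γ))ˣ),
          SameClass A B ∧ ShortRows B,
        ∃ (μ : Type) (_ : Fintype μ) (_ : DecidableEq μ) (B : (Matrix μ μ (MonoidAlgebra ℤ Γ))ˣ),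
          SameClass A B ∧ ShortCols B,
        ∃ u ∈ pentagonUnits Γ, ClassOfUnit A.val u.val].TFAE ∧
      ((∀ t : Γ, t ^ 5 = 1 → t = 1) → ShortRows A ∨ ShortCols A → ZeroInWh A.val)) ∧
    IsLeast {δ : ℝ | ∃ (Γ : Type) (_ : Group Γ) (n : ℕ)
      (A : (Matrix (Fin n) (Fin n) (MonoidAlgebra ℤ Γ))ˣ),
      OpNormLE (defect A) δ ∧ ¬ ZeroInWh A.val} (Real.sqrt 5) ∧
    IsLeast {c : ℝ | ∃ (Γ : Type) (_ : Group Γ) (n : ℕ)
      (A : (Matrix (Fin n) (Fin n) (MonoidAlgebra ℤ Γ))ˣ),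
      OpNormLE A.val c ∧ OpNormLE A⁻¹.val c ∧ ¬ ZeroInWh A.val} ((3 + Real.sqrt 5) / 2) := by
  refine ⟨?_, ⟨?_, ?_⟩, ⟨?_, ?_⟩⟩
  · intro Γ _ κ _ _ A
    constructor
    · tfae_have 1 → 3 := by
        rintro ⟨μ, i1, i2, B, h1, h2⟩
        exact unit_of_TT5 (TT5_of_rows A B ((sameClass_iff A B).1 h1) (TT5_rows h2))
      tfae_have 2 → 3 := by
        rintro ⟨μ, i1, i2, B, h1, h2⟩
        exact unit_of_TT5 (TT5_of_rows A B ((sameClass_iff A B).1 h1) (TT5_cols h2))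
      tfae_have 3 → 1 := by
        intro h
        obtain ⟨μ, i1, i2, B, h1, h2⟩ := RR_of_TT5 A (TT5_of_unit h)
        exact ⟨μ, i1, i2, B, (sameClass_iff A B).2 h2, h1.1⟩
      tfae_have 3 → 2 := by
        intro h
        obtain ⟨μ, i1, i2, B, h1, h2⟩ := RR_of_TT5 A (TT5_of_unit h)
        exact ⟨μ, i1, i2, B, (sameClass_iff A B).2 h2, h1.2⟩
      tfae_finish
    · rintro h5 (h | h)
      · exact zero_of_TT (TT_mono (U5_le_TU h5) _ (TT5_rows h))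
      · exact zero_of_TT (TT_mono (U5_le_TU h5) _ (TT5_cols h))
  · exact ⟨C5, inferInstance, 1, um, ⟨Real.sqrt_nonneg 5, dd_norm⟩, um_nonzero⟩
  · rintro δ ⟨Γ, _, n, A, ⟨h0, h1⟩, h2⟩
    by_contra hcon
    push Not at hcon
    apply h2
    refine zero_of_TT (TT_norm A δ ?_ h1)
    have hs : Real.sqrt 5 ^ 2 = 5 := Real.sq_sqrt (by norm_num)
    nlinarith
  · refine ⟨C5, inferInstance, 1, um, ⟨?_, uu_norm⟩, ⟨?_, vv_norm⟩, um_nonzero⟩ <;> positivity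
  · rintro c ⟨Γ, _, n, A, ⟨h0, h1⟩, ⟨_, h3⟩, h2⟩
    by_contra hcon
    push Not at hcon
    exact h2 (zero_of_TT (TT_two A c h0 hcon h1 h3))

end Pool.Agent.Results.MP_8f66f0_al.AdjointInverseGap
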