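import Pool.Agent.H52.SW.Wh

set_option autoImplicit false
set_option linter.unusedSectionVars false

/-! Self-adjoint invertible matrices over the integral group ring of a torsion-free group: the
classes in the Whitehead group, the distance to the real diagonal matrices and the width of the
spectrum. -/

namespace Pool.Agent.Results.MP_8f66f0_al.SelfAdjointMatrices

open Matrix

section defs

variable {Γ : Type} [Group Γ] {κ : Type}

/-- the adjoint (conjugate transpose) of a matrix over `ℤΓ`, for the involution `g ↦ g⁻¹` -/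
noncomputable def adjoint {μ : Type} (A : Matrix κ μ (MonoidAlgebra ℤ Γ)) :
    Matrix μ κ (MonoidAlgebra ℤ Γ) :=
  Matrix.of fun j i => MonoidAlgebra.mapDomain (fun g => g⁻¹) (A i j)

/-- `A* = A` -/
def SelfAdjoint (A : Matrix κ κ (MonoidAlgebra ℤ Γ)) : Prop := adjoint A = A

/-- the squared norm in `ℓ²(Γ)` -/
noncomputable def sq (x : MonoidAlgebra ℝ Γ) : ℝ := ∑ g ∈ x.coeff.support, x.coeff g ^ 2

/-- the quadratic form `⟨x A, x⟩` of `A` on the finitely supported row vectors `x` in `ℓ²(Γ)^κ` -/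
noncomputable def form [Fintype κ] (A : Matrix κ κ (MonoidAlgebra ℤ Γ))
    (x : κ → MonoidAlgebra ℝ Γ) : ℝ :=
  ∑ j, ∑ g ∈ (x j).coeff.support,
    ((x ᵥ* A.map (MonoidAlgebra.mapRingHom Γ (Int.castRingHom ℝ))) j).coeff g * (x j).coeff g

/-- The self-adjoint operator of right multiplication by `A` on `ℓ²(Γ)^κ` has distance at most `c`
to the diagonal operator with the real diagonal entries `d j`. -/
def WithinOfDiagonal [Fintype κ] (A : Matrix κ κ (MonoidAlgebra ℤ Γ)) (d : κ → ℝ) (c : ℝ) : Prop :=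
  ∀ x : κ → MonoidAlgebra ℝ Γ, |form A x - ∑ j, d j * sq (x j)| ≤ c * ∑ j, sq (x j)

/-- The spectrum of the operator of right multiplication by `A` on `ℓ²(Γ)^κ` lies in `[α, β]`. -/
def SpectrumIn [Fintype κ] (A : Matrix κ κ (MonoidAlgebra ℤ Γ)) (α β : ℝ) : Prop :=
  ∀ x : κ → MonoidAlgebra ℝ Γ, α * ∑ j, sq (x j) ≤ form A x ∧ form A x ≤ β * ∑ j, sq (x j)

/-- the square matrix `x` over `ℤΓ`, stabilised by an identity block, is `± g` on one diagonal entry
times a product of commutators of invertible matrices (the form of the frozen statement) -/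
def ZeroInWh [Fintype κ] [DecidableEq κ] (x : Matrix κ κ (MonoidAlgebra ℤ Γ)) : Prop :=
  ∃ (m : ℕ) (g : Γ) (ε : ℤˣ)
    (C : (Matrix (κ ⊕ Fin (m + 1)) (κ ⊕ Fin (m + 1)) (MonoidAlgebra ℤ Γ))ˣ),
    C ∈ commutator (Matrix (κ ⊕ Fin (m + 1)) (κ ⊕ Fin (m + 1)) (MonoidAlgebra ℤ Γ))ˣ ∧
    Matrix.fromBlocks x 0 0 (1 : Matrix (Fin (m + 1)) (Fin (m + 1)) (MonoidAlgebra ℤ Γ)) =
      Matrix.diagonal (fun i : κ ⊕ Fin (m + 1) =>
          if i = Sum.inr (0 : Fin (m + 1)) then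
            (MonoidAlgebra.single g ((ε : ℤ)) : MonoidAlgebra ℤ Γ) else 1) *
        (↑C : Matrix (κ ⊕ Fin (m + 1)) (κ ⊕ Fin (m + 1)) (MonoidAlgebra ℤ Γ))

/-- `A` and `B` have the same class in `Wh(Γ)`: the class of `A ⊕ B⁻¹` is zero. -/
def SameClass [Fintype κ] [DecidableEq κ] {μ : Type} [Fintype μ] [DecidableEq μ]
    (A : (Matrix κ κ (MonoidAlgebra ℤ Γ))ˣ) (B : (Matrix μ μ (MonoidAlgebra ℤ Γ))ˣ) : Prop :=
  ZeroInWh (fromBlocks A.val 0 0 B⁻¹.val)

/-- products of elementary matrices -/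
def Elementary [Fintype κ] [DecidableEq κ] (E : Matrix κ κ (MonoidAlgebra ℤ Γ)) : Prop :=
  E ∈ Submonoid.closure {M | ∃ i j : κ, i ≠ j ∧ ∃ a : MonoidAlgebra ℤ Γ,
    M = 1 + Matrix.single i j a}

/-- the distance of the class of `A` in `Wh(Γ)` to the real diagonal matrices: the infimum of all
`c ≥ 0` such that some self-adjoint invertible matrix `B` over `ℤΓ` in this class is within `c` of a
real diagonal matrix -/
noncomputable def diagDist [Fintype κ] [DecidableEq κ] (A : (Matrix κ κ (MonoidAlgebra ℤ Γ))ˣ) :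
    ℝ :=
  sInf {c : ℝ | 0 ≤ c ∧ ∃ (μ : Type) (_ : Fintype μ) (_ : DecidableEq μ)
    (B : (Matrix μ μ (MonoidAlgebra ℤ Γ))ˣ) (d : μ → ℝ),
    SelfAdjoint B.val ∧ SameClass A B ∧ WithinOfDiagonal B.val d c}

/-- the spectral width of the class of `A` in `Wh(Γ)`: the infimum of all `w ≥ 0` such that some
self-adjoint invertible matrix `B` over `ℤΓ` in this class has its spectrum in an interval of length
`w` -/
noncomputable def width [Fintype κ] [DecidableEq κ] (A : (Matrix κ κ (MonoidAlgebra ℤ Γ))ˣ) : ℝ :=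
  sInf {w : ℝ | 0 ≤ w ∧ ∃ (μ : Type) (_ : Fintype μ) (_ : DecidableEq μ)
    (B : (Matrix μ μ (MonoidAlgebra ℤ Γ))ˣ) (α : ℝ),
    SelfAdjoint B.val ∧ SameClass A B ∧ SpectrumIn B.val α (α + w)}

end defs

section aux

open TH57.Thr TH6.LF TH6.CX Pool.Agent.Y75.Th Pool.Agent.H52.SW

variable {Γ : Type} [Group Γ] {κ : Type} [Fintype κ] [DecidableEq κ]

theorem zero_of_TT {A : (Matrix κ κ (MonoidAlgebra ℤ Γ))ˣ} (h : TT (TU Γ) A) : ZeroInWh A.val :=
  TT_explicit A h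

theorem TT_of_zero {A : (Matrix κ κ (MonoidAlgebra ℤ Γ))ˣ} (h : ZeroInWh A.val) :
    TT (TU Γ) A := by
  obtain ⟨m, g, ε, C, hC, h1⟩ := h
  refine ⟨Fin (m + 1), inferInstance, inferInstance, ?_⟩
  let u : (MonoidAlgebra ℤ Γ)ˣ :=
    { val := MonoidAlgebra.single g (ε : ℤ)
      inv := MonoidAlgebra.single g⁻¹ ((ε⁻¹ : ℤˣ) : ℤ)
      val_inv := by
        rw [MonoidAlgebra.single_mul_single, mul_inv_cancel, Units.mul_inv]; rfl
      inv_val := by
        rw [MonoidAlgebra.single_mul_single, inv_mul_cancel, Units.inv_mul]; rfl }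
  have hu : u ∈ TU Γ := ⟨g, ε, rfl⟩
  have h2 : Units.map (stm (Fin (m + 1))) A
      = Units.map (dgm (Sum.inr (0 : Fin (m + 1)))) u * C := by
    apply Units.ext
    rw [Units.val_mul]
    change fromBlocks A.val 0 0 1 = dgm (Sum.inr (0 : Fin (m + 1))) (u : MonoidAlgebra ℤ Γ) * C.val
    rw [h1, dgm_apply]
    congr 2
    funext i
    by_cases h : i = Sum.inr (0 : Fin (m + 1))
    · subst h; simp [u]
    · rw [if_neg h, Function.update_of_ne h]; rfl
  rw [h2]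
  exact mul_mem (dgm_mem_HH _ _ u hu) (commutator_le_HH _ hC)

theorem sameClass_iff {μ : Type} [Fintype μ] [DecidableEq μ]
    (A : (Matrix κ κ (MonoidAlgebra ℤ Γ))ˣ) (B : (Matrix μ μ (MonoidAlgebra ℤ Γ))ˣ) :
    SameClass A B ↔ TT (TU Γ) (blk A B⁻¹) :=
  ⟨fun h => TT_of_zero (A := blk A B⁻¹) h, fun h => zero_of_TT h⟩

theorem form_eq (A : Matrix κ κ (MonoidAlgebra ℤ Γ)) (x : κ → MonoidAlgebra ℝ Γ) :
    form A x = ip (x ᵥ* toReal A) x := by
  rw [ip_comm]
  unfold form ip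
  rw [MonoidAlgebra.coeff_sum, Finsupp.finsetSum_apply]
  refine Finset.sum_congr rfl fun i _ => ?_
  rw [MonoidAlgebra.coeff_mul_apply_left, Finsupp.sum]
  refine Finset.sum_congr rfl fun g _ => ?_
  rw [coeff_bar]
  simp [mul_comm, toReal]

theorem within_iff (A : Matrix κ κ (MonoidAlgebra ℤ Γ)) (d : κ → ℝ) (c : ℝ) :
    WithinOfDiagonal A d c ↔ NearDiag A d c := by
  unfold WithinOfDiagonal NearDiag
  simp only [form_eq]
  rfl

theorem within_of_spectrum (A : Matrix κ κ (MonoidAlgebra ℤ Γ)) (α β : ℝ)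
    (h : SpectrumIn A α β) : WithinOfDiagonal A (fun _ => (α + β) / 2) ((β - α) / 2) := by
  intro x
  obtain ⟨h1, h2⟩ := h x
  rw [← Finset.mul_sum, abs_le]
  constructor <;> nlinarith

theorem spectrum_of_within (A : Matrix κ κ (MonoidAlgebra ℤ Γ)) (c : ℝ)
    (h : WithinOfDiagonal A 0 c) : SpectrumIn A (-c) c := by
  intro x
  have h1 := h x
  simp only [Pi.zero_apply, zero_mul, Finset.sum_const_zero, sub_zero] at h1
  have h2 := abs_le.1 h1
  constructor <;> linarith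

/-- the lower bound -/
theorem zero_of_near (htf : ∀ g : Γ, ∀ k : ℕ, 0 < k → g ^ k = 1 → g = 1)
    (A : (Matrix κ κ (MonoidAlgebra ℤ Γ))ˣ) (hA : SelfAdjoint A.val) (d : κ → ℝ) (c : ℝ)
    (hc : c < 3 / Real.sqrt 2) (h : WithinOfDiagonal A.val d c) : ZeroInWh A.val :=
  zero_of_TT (TT_near htf A hA d c hc ((within_iff _ _ _).1 h))

theorem three_div_sqrt : 3 * Real.sqrt 2 = 2 * (3 / Real.sqrt 2) := by
  have hr : 0 < Real.sqrt 2 := Real.sqrt_pos.2 two_pos
  have hr2 : Real.sqrt 2 * Real.sqrt 2 = 2 := Real.mul_self_sqrt two_pos.le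
  field_simp
  linarith

theorem zero_of_width (htf : ∀ g : Γ, ∀ k : ℕ, 0 < k → g ^ k = 1 → g = 1)
    (A : (Matrix κ κ (MonoidAlgebra ℤ Γ))ˣ) (hA : SelfAdjoint A.val) (α β : ℝ)
    (hc : β - α < 3 * Real.sqrt 2) (h : SpectrumIn A.val α β) : ZeroInWh A.val := by
  refine zero_of_near htf A hA _ _ ?_ (within_of_spectrum _ α β h)
  rw [three_div_sqrt] at hc
  linarith

theorem sq_bound {c : ℝ} (hc : 3 / Real.sqrt 2 < c) : 0 < c ∧ 9 / 2 < c ^ 2 := by
  have hr : 0 < Real.sqrt 2 := Real.sqrt_pos.2 two_pos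
  have hr2 : Real.sqrt 2 ^ 2 = 2 := Real.sq_sqrt two_pos.le
  have hsq : (3 / Real.sqrt 2) ^ 2 = 9 / 2 := by rw [div_pow, hr2]; norm_num
  have hpos : 0 < 3 / Real.sqrt 2 := by positivity
  refine ⟨hpos.trans hc, ?_⟩
  rw [← hsq]
  exact pow_lt_pow_left₀ hc hpos.le two_ne_zero

/-- the upper bound -/
theorem exists_small (A : (Matrix κ κ (MonoidAlgebra ℤ Γ))ˣ) (hA : SelfAdjoint A.val) (c : ℝ)
    (hc : 3 / Real.sqrt 2 < c) :
    ∃ (μ : Type) (_ : Fintype μ) (_ : DecidableEq μ) (T : (Matrix μ μ (MonoidAlgebra ℤ Γ))ˣ),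
      SelfAdjoint T.val ∧ SameClass A T ∧ WithinOfDiagonal T.val 0 c := by
  obtain ⟨h0, h1⟩ := sq_bound hc
  obtain ⟨μ, i1, i2, T, h2, h3, h4⟩ := reduction_wh A hA c h0 h1
  exact ⟨μ, i1, i2, T, h2, (sameClass_iff A T).2 h4, (within_iff _ _ _).2 h3⟩

theorem zero_of_same {μ : Type} [Fintype μ] [DecidableEq μ]
    (A : (Matrix κ κ (MonoidAlgebra ℤ Γ))ˣ) (B : (Matrix μ μ (MonoidAlgebra ℤ Γ))ˣ)
    (h : SameClass A B) (hB : ZeroInWh B.val) : ZeroInWh A.val :=
  zero_of_TT (TT_blk_right _ A B⁻¹ ((sameClass_iff A B).1 h) (TT_inv _ _ (TT_of_zero hB)))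

theorem same_one (A : (Matrix κ κ (MonoidAlgebra ℤ Γ))ˣ) (h : ZeroInWh A.val) :
    SameClass A (1 : (Matrix Unit Unit (MonoidAlgebra ℤ Γ))ˣ) := by
  rw [sameClass_iff]
  exact TT_blk _ _ _ (TT_of_zero h) (TT_inv _ _ (TT_one _))

theorem selfAdjoint_one : SelfAdjoint (1 : Matrix κ κ (MonoidAlgebra ℤ Γ)) := adj_one

theorem form_one (x : κ → MonoidAlgebra ℝ Γ) :
    form (1 : Matrix κ κ (MonoidAlgebra ℤ Γ)) x = ∑ j, sq (x j) := by
  rw [form_eq, toReal_one, Matrix.vecMul_one, ip_self]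
  rfl

theorem diagDist_zero (A : (Matrix κ κ (MonoidAlgebra ℤ Γ))ˣ) (h : ZeroInWh A.val) :
    diagDist A = 0 := by
  unfold diagDist
  refine le_antisymm (csInf_le ⟨0, fun _ hc => hc.1⟩ ?_) (Real.sInf_nonneg fun _ hc => hc.1)
  refine ⟨le_rfl, Unit, inferInstance, inferInstance, 1, fun _ => 1, selfAdjoint_one,
    same_one A h, fun x => ?_⟩
  rw [Units.val_one, form_one]
  simp

theorem width_zero (A : (Matrix κ κ (MonoidAlgebra ℤ Γ))ˣ) (h : ZeroInWh A.val) :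
    width A = 0 := by
  unfold width
  refine le_antisymm (csInf_le ⟨0, fun _ hc => hc.1⟩ ?_) (Real.sInf_nonneg fun _ hc => hc.1)
  refine ⟨le_rfl, Unit, inferInstance, inferInstance, 1, 1, selfAdjoint_one,
    same_one A h, fun x => ?_⟩
  rw [Units.val_one, form_one, add_zero, one_mul]
  exact ⟨le_rfl, le_rfl⟩

theorem diagDist_of_not (htf : ∀ g : Γ, ∀ k : ℕ, 0 < k → g ^ k = 1 → g = 1)
    (A : (Matrix κ κ (MonoidAlgebra ℤ Γ))ˣ) (hA : SelfAdjoint A.val) (h : ¬ ZeroInWh A.val) :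
    diagDist A = 3 / Real.sqrt 2 := by
  unfold diagDist
  have hpos : 0 < 3 / Real.sqrt 2 := by positivity
  apply le_antisymm
  · refine le_of_forall_gt_imp_ge_of_dense fun c hc => ?_
    obtain ⟨μ, i1, i2, T, h1, h2, h3⟩ := exists_small A hA c hc
    exact csInf_le ⟨0, fun _ hc => hc.1⟩ ⟨(hpos.trans hc).le, μ, i1, i2, T, 0, h1, h2, h3⟩
  · obtain ⟨μ, i1, i2, T, h1, h2, h3⟩ := exists_small A hA (3 / Real.sqrt 2 + 1) (by linarith)
    refine le_csInf ⟨_, (by linarith), μ, i1, i2, T, 0, h1, h2, h3⟩ ?_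
    rintro c ⟨_, μ', i3, i4, B, d, h4, h5, h6⟩
    by_contra hc
    push Not at hc
    exact h (zero_of_same A B h5 (zero_of_near htf B h4 d c hc h6))

theorem width_of_not (htf : ∀ g : Γ, ∀ k : ℕ, 0 < k → g ^ k = 1 → g = 1)
    (A : (Matrix κ κ (MonoidAlgebra ℤ Γ))ˣ) (hA : SelfAdjoint A.val) (h : ¬ ZeroInWh A.val) :
    width A = 3 * Real.sqrt 2 := by
  unfold width
  have hpos : 0 < 3 / Real.sqrt 2 := by positivity
  have key : ∀ c : ℝ, 3 / Real.sqrt 2 < c → 2 * c ∈ {w : ℝ | 0 ≤ w ∧ ∃ (μ : Type)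
      (_ : Fintype μ) (_ : DecidableEq μ) (B : (Matrix μ μ (MonoidAlgebra ℤ Γ))ˣ) (α : ℝ),
      SelfAdjoint B.val ∧ SameClass A B ∧ SpectrumIn B.val α (α + w)} := by
    intro c hc
    obtain ⟨μ, i1, i2, T, h1, h2, h3⟩ := exists_small A hA c hc
    refine ⟨by linarith, μ, i1, i2, T, -c, h1, h2, ?_⟩
    have h4 := spectrum_of_within _ c h3
    rwa [show -c + 2 * c = c by ring]
  rw [three_div_sqrt]
  apply le_antisymm
  · refine le_of_forall_gt_imp_ge_of_dense fun w hw => ?_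
    have h1 := key (w / 2) (by linarith)
    rw [show 2 * (w / 2) = w by ring] at h1
    exact csInf_le ⟨0, fun _ hc => hc.1⟩ h1
  · refine le_csInf ⟨_, key (3 / Real.sqrt 2 + 1) (by linarith)⟩ ?_
    rintro w ⟨_, μ', i3, i4, B, α, h4, h5, h6⟩
    by_contra hc
    push Not at hc
    refine h (zero_of_same A B h5 (zero_of_width htf B h4 α (α + w) ?_ h6))
    rw [three_div_sqrt]
    linarith

end aux

/-- **Self-adjoint matrices over integral group rings.** (1) Let `Γ` be torsion-free. A self-adjoint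
invertible matrix over `ℤΓ` whose distance to some real diagonal matrix is less than `3 / √2`, or
whose spectrum lies in an interval of length less than `3 √2`, is zero in `Wh(Γ)`. (2) For every
group `Γ` and every `c > 3 / √2` every self-adjoint matrix `A` over `ℤΓ` becomes, after adding a
diagonal matrix with entries `± s`, `s ^ 2 = 1`, and a hyperbolic matrix, congruent by a product of
elementary matrices to a self-adjoint matrix of norm at most `c`. (3) Hence for torsion-free `Γ` a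
nonzero class of `Wh(Γ)` which contains self-adjoint matrices has distance exactly `3 / √2` to the
real diagonal matrices and spectral width exactly `3 √2`. (4) All self-adjoint invertible matrices
over `ℤΓ` are zero in `Wh(Γ)` if those of norm at most `c` are, for any one `c > 3 / √2`. -/
theorem result :
    (∀ (Γ : Type) [Group Γ], (∀ g : Γ, ∀ k : ℕ, 0 < k → g ^ k = 1 → g = 1) →
      ∀ (κ : Type) [Fintype κ] [DecidableEq κ] (A : (Matrix κ κ (MonoidAlgebra ℤ Γ))ˣ),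
        SelfAdjoint A.val →
        (∀ (d : κ → ℝ) (c : ℝ), c < 3 / Real.sqrt 2 → WithinOfDiagonal A.val d c →
          ZeroInWh A.val) ∧
        (∀ α β : ℝ, β - α < 3 * Real.sqrt 2 → SpectrumIn A.val α β → ZeroInWh A.val)) ∧
    (∀ (Γ : Type) [Group Γ] (κ : Type) [Fintype κ] [DecidableEq κ]
      (A : Matrix κ κ (MonoidAlgebra ℤ Γ)), SelfAdjoint A → ∀ c : ℝ, 3 / Real.sqrt 2 < c →
        ∃ (p q : Type) (_ : Fintype p) (_ : DecidableEq p) (_ : Fintype q) (_ : DecidableEq q)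
          (s : p → Γ) (ε : p → ℤ)
          (E : Matrix (κ ⊕ (p ⊕ (q ⊕ q))) (κ ⊕ (p ⊕ (q ⊕ q))) (MonoidAlgebra ℤ Γ)),
          (∀ k, s k * s k = 1) ∧ (∀ k, ε k = 1 ∨ ε k = -1) ∧ Elementary E ∧
          WithinOfDiagonal (E * fromBlocks A 0 0 (fromBlocks
            (Matrix.diagonal fun k => MonoidAlgebra.single (s k) (ε k)) 0 0
            (fromBlocks 0 1 1 0)) * adjoint E) 0 c) ∧
    (∀ (Γ : Type) [Group Γ], (∀ g : Γ, ∀ k : ℕ, 0 < k → g ^ k = 1 → g = 1) →
      ∀ (κ : Type) [Fintype κ] [DecidableEq κ] (A : (Matrix κ κ (MonoidAlgebra ℤ Γ))ˣ),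
        SelfAdjoint A.val →
        (ZeroInWh A.val ∧ diagDist A = 0 ∧ width A = 0) ∨
        (¬ ZeroInWh A.val ∧ diagDist A = 3 / Real.sqrt 2 ∧ width A = 3 * Real.sqrt 2)) ∧
    (∀ (Γ : Type) [Group Γ] (c : ℝ), 3 / Real.sqrt 2 < c →
      (∀ (κ : Type) [Fintype κ] [DecidableEq κ] (A : (Matrix κ κ (MonoidAlgebra ℤ Γ))ˣ),
        SelfAdjoint A.val → WithinOfDiagonal A.val 0 c → ZeroInWh A.val) →
      ∀ (κ : Type) [Fintype κ] [DecidableEq κ] (A : (Matrix κ κ (MonoidAlgebra ℤ Γ))ˣ),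
        SelfAdjoint A.val → ZeroInWh A.val) := by
  refine ⟨?_, ?_, ?_, ?_⟩
  · intro Γ _ htf κ _ _ A hA
    exact ⟨fun d c hc h => zero_of_near htf A hA d c hc h,
      fun α β hc h => zero_of_width htf A hA α β hc h⟩
  · intro Γ _ κ _ _ A hA c hc
    obtain ⟨h0, h1⟩ := sq_bound hc
    obtain ⟨p, q, i1, i2, i3, i4, s, ε, E, hs, hE, hN⟩ :=
      Pool.Agent.H52.SW.reduction_sa A hA c h0 h1
    exact ⟨p, q, i1, i2, i3, i4, s, ε, E, hs.1, hs.2, hE, (within_iff _ _ _).2 hN⟩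
  · intro Γ _ htf κ _ _ A hA
    by_cases h : ZeroInWh A.val
    · exact Or.inl ⟨h, diagDist_zero A h, width_zero A h⟩
    · exact Or.inr ⟨h, diagDist_of_not htf A hA h, width_of_not htf A hA h⟩
  · intro Γ _ c hc hall κ _ _ A hA
    obtain ⟨μ, i1, i2, T, h1, h2, h3⟩ := exists_small A hA c hc
    exact zero_of_same A T h2 (hall μ T h1 h3)

end Pool.Agent.Results.MP_8f66f0_al.SelfAdjointMatrices
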