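import Pool.Agent.H1.MV.Blk

/-!
# Whitehead groups of groups which act on trees

Let `G` act on a tree without inversions, such that each ray has an initial segment whose pointwise
stabiliser is trivial or has a regular coherent integral group ring, and such that all finitely
generated projective modules over the group rings of the edge stabilisers are stably free. Then the
Whitehead group of `G` is generated by the images of the Whitehead groups of the vertex stabilisers.

If the group rings of all edge stabilisers are regular coherent, this is a theorem of Waldhausen; if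
for some `m` the pointwise stabilisers of all paths of length `m` are trivial, this is the case of an
acylindrical action. In general neither the edge stabilisers nor the stabilisers of all paths of any
fixed length need to have a regular coherent group ring.
-/

set_option autoImplicit false

namespace Pool.Agent.Results.MP_8f66f0_al.TreeActions

open Matrix

/-- The class in the Whitehead group of the invertible matrix `A` over `ℤG` is zero: stabilised by an
identity block, `A` is `± g` on one diagonal entry times a product of commutators of invertible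
matrices (the form of the frozen statement). -/
def ZeroInWh {G : Type} [Group G] {κ : Type} [Fintype κ] [DecidableEq κ]
    (A : (Matrix κ κ (MonoidAlgebra ℤ G))ˣ) : Prop :=
  ∃ (m : ℕ) (g : G) (ε : ℤˣ)
    (C : (Matrix (κ ⊕ Fin (m + 1)) (κ ⊕ Fin (m + 1)) (MonoidAlgebra ℤ G))ˣ),
    C ∈ commutator (Matrix (κ ⊕ Fin (m + 1)) (κ ⊕ Fin (m + 1)) (MonoidAlgebra ℤ G))ˣ ∧
    Matrix.fromBlocks A.val 0 0 (1 : Matrix (Fin (m + 1)) (Fin (m + 1)) (MonoidAlgebra ℤ G)) =
      Matrix.diagonal (fun i : κ ⊕ Fin (m + 1) =>
          if i = Sum.inr (0 : Fin (m + 1)) then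
            (MonoidAlgebra.single g ((ε : ℤ)) : MonoidAlgebra ℤ G) else 1) * C.val

/-- The Whitehead group of `G` is zero. -/
def WhZero (G : Type) [Group G] : Prop :=
  ∀ (n : ℕ) (A : (Matrix (Fin n) (Fin n) (MonoidAlgebra ℤ G))ˣ), ZeroInWh A

/-- The block sum of two invertible matrices. -/
noncomputable def blockSum {G : Type} [Group G] {κ μ : Type} [Fintype κ] [DecidableEq κ] [Fintype μ]
    [DecidableEq μ] (A : (Matrix κ κ (MonoidAlgebra ℤ G))ˣ)
    (B : (Matrix μ μ (MonoidAlgebra ℤ G))ˣ) : (Matrix (κ ⊕ μ) (κ ⊕ μ) (MonoidAlgebra ℤ G))ˣ where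
  val := fromBlocks A.val 0 0 B.val
  inv := fromBlocks (A⁻¹).val 0 0 (B⁻¹).val
  val_inv := by
    rw [Matrix.fromBlocks_multiply, ← Matrix.fromBlocks_one]
    simp
  inv_val := by
    rw [Matrix.fromBlocks_multiply, ← Matrix.fromBlocks_one]
    simp

/-- `A` and `B` have the same class in the Whitehead group: the class of the block sum of `A` and
`B⁻¹` is zero. -/
def SameClass {G : Type} [Group G] {κ μ : Type} [Fintype κ] [DecidableEq κ] [Fintype μ]
    [DecidableEq μ] (A : (Matrix κ κ (MonoidAlgebra ℤ G))ˣ)
    (B : (Matrix μ μ (MonoidAlgebra ℤ G))ˣ) : Prop :=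
  ZeroInWh (blockSum A B⁻¹)

/-- Every finitely generated projective module over `R` is stably free. -/
def ProjStablyFree (R : Type) [Ring R] : Prop :=
  ∀ (P : Type) [AddCommGroup P] [Module R P] [Module.Finite R P] [Module.Projective R P],
    Module.IsStablyFree R P

/-- The matrix `Y` over `ℤG` is block diagonal with blocks over the group rings of the vertex
stabilisers: its rows and columns are labelled by vertices `ω i`, an entry is zero if the labels of
its row and of its column differ, and if the labels are equal to `v`, then only elements of the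
stabiliser of `v` occur in the entry. -/
def VertexBlocks {G V : Type} [Group G] [MulAction G V] {N : ℕ} (ω : Fin N → V)
    (Y : Matrix (Fin N) (Fin N) (MonoidAlgebra ℤ G)) : Prop :=
  ∀ (i j : Fin N) (g : G), (Y i j).coeff g ≠ 0 → ω i = ω j ∧ g ∈ MulAction.stabilizer G (ω i)

theorem all_of_proj {R : Type} [Ring R] [Nontrivial R] (h : ProjStablyFree R) :
    Pool.Agent.H1.MV.AllStablyFree R := by
  intro P _ _ _ _
  have := h P
  obtain ⟨N, _, _, _, _, _⟩ := Module.IsStablyFree.exist_free_prod R P
  let b := Module.Free.chooseBasis R N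
  let c := Module.Free.chooseBasis R (P × N)
  let eN : N ≃ₗ[R] (Fin (Fintype.card (Module.Free.ChooseBasisIndex R N)) → R) :=
    b.equivFun.trans (LinearEquiv.funCongrLeft R R (Fintype.equivFin _).symm)
  let eP : (P × N) ≃ₗ[R] (Fin (Fintype.card (Module.Free.ChooseBasisIndex R (P × N))) → R) :=
    c.equivFun.trans (LinearEquiv.funCongrLeft R R (Fintype.equivFin _).symm)
  exact ⟨_, _, ⟨(LinearEquiv.prodCongr (LinearEquiv.refl R P) eN.symm).trans eP⟩⟩

/-- The module `M` has a resolution of length at most `n` by finitely generated projective modules,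
all of which except perhaps the last one are free. -/
def HasResolution (R : Type) [Ring R] : ∀ (_ : ℕ) (M : Type) [AddCommGroup M] [Module R M], Prop
  | 0, M, _, _ => Module.Finite R M ∧ Module.Projective R M
  | n + 1, M, _, _ => ∃ (ι : Type) (_ : Fintype ι) (f : (ι → R) →ₗ[R] M),
      Function.Surjective f ∧ HasResolution R n (LinearMap.ker f)

/-- The ring `R` is (left) regular coherent: every finitely presented left module has a finite
resolution by finitely generated projective modules. -/
def RegularCoherent (R : Type) [Ring R] : Prop :=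
  ∀ (M : Type) [AddCommGroup M] [Module R M] [Module.FinitePresentation R M],
    ∃ n, HasResolution R n M

theorem HasResolution.fpd {R : Type} [Ring R] {n : ℕ} : ∀ {M : Type} [AddCommGroup M] [Module R M]
    (_ : HasResolution R n M), Pool.Agent.H1.MV.FPD R n M := by
  induction n with
  | zero =>
    intro M _ _ h
    exact h
  | succ n ih =>
    intro M _ _ h
    obtain ⟨ι, _, f, hf, hk⟩ := h
    exact ⟨ι, inferInstance, f, hf, ih hk⟩

/-- The stabiliser of the initial segment `p 0, …, p n` of a ray. -/
def segmentStabilizer (G : Type) [Group G] {V : Type} [MulAction G V] (p : ℕ → V) (n : ℕ) :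
    Subgroup G :=
  fixingSubgroup G (p '' Set.Iic n)

theorem segmentStabilizer_eq (G : Type) [Group G] {V : Type} [MulAction G V] (p : ℕ → V) (n : ℕ) :
    segmentStabilizer G p n = Pool.Agent.H1.MV.Fx G n p := by
  ext g
  unfold segmentStabilizer
  rw [mem_fixingSubgroup_iff]
  constructor
  · intro h i hi
    exact h _ ⟨i, hi, rfl⟩
  · rintro h _ ⟨i, hi, rfl⟩
    exact h i hi

/-- **Actions on trees.** Let the group `G` act on a tree `T` by graph automorphisms and without
inversions. Suppose that each ray of the tree has an initial segment whose pointwise stabiliser has a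
regular coherent integral group ring or is trivial, and that for every edge `v w` all finitely
generated projective modules over the integral group ring of the stabiliser of the edge are stably
free. Then every invertible matrix `X` over `ℤG` has the class in the Whitehead group of an
invertible block diagonal matrix whose blocks are invertible matrices over the group rings of vertex
stabilisers. In particular, if the Whitehead groups of all vertex stabilisers are zero, then the
Whitehead group of `G` is zero. -/
theorem result :
    ∀ (G V : Type) [Group G] [MulAction G V] (T : SimpleGraph V), T.IsTree →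
      (∀ (g : G) (v w : V), T.Adj v w → T.Adj (g • v) (g • w)) →
      (∀ (g : G) (v w : V), T.Adj v w → ¬ (g • v = w ∧ g • w = v)) →
      (∀ p : ℕ → V, (∀ i, T.Adj (p i) (p (i + 1))) → (∀ i, p (i + 2) ≠ p i) →
        ∃ n, segmentStabilizer G p n = ⊥ ∨
          RegularCoherent (MonoidAlgebra ℤ (segmentStabilizer G p n))) →
      (∀ v w : V, T.Adj v w →
        ProjStablyFree (MonoidAlgebra ℤ (MulAction.stabilizer G ((v, w) : V × V)))) →
      (∀ (n : ℕ) (X : (Matrix (Fin n) (Fin n) (MonoidAlgebra ℤ G))ˣ),
        ∃ (N : ℕ) (ω : Fin N → V) (Y : (Matrix (Fin N) (Fin N) (MonoidAlgebra ℤ G))ˣ),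
          VertexBlocks ω Y.val ∧ VertexBlocks ω (Y⁻¹).val ∧ SameClass X Y) ∧
      ((∀ v : V, WhZero (MulAction.stabilizer G v)) → WhZero G) := by
  classical
  intro G V _ _ T hT hact hinv hm hE
  have key : ∀ (n : ℕ) (X : (Matrix (Fin n) (Fin n) (MonoidAlgebra ℤ G))ˣ),
      Pool.Agent.H1.MV.VC V X := by
    intro n X
    refine Pool.Agent.H1.MV.vc_all hT hact hinv Pool.Agent.H1.MV.nice_cls (fun _ h => h) ?_
      (fun v w h => all_of_proj (hE v w h)) X
    intro p h1 h2
    obtain ⟨n, hn⟩ := hm p h1 h2
    refine ⟨n, ?_⟩
    rw [segmentStabilizer_eq] at hn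
    rcases hn with hn | hn
    · exact Pool.Agent.H1.MV.nice_bot ℤ hn
    apply Pool.Agent.H1.MV.RegularCoherent.nice
    intro M _ _ _
    obtain ⟨d, hd⟩ := hn M
    exact ⟨d, hd.fpd⟩
  constructor
  · intro n X
    obtain ⟨μ, _, _, ω, y, hr, h1, h2, h3⟩ := key n X
    let e : Fin (Fintype.card μ) ≃ μ := (Fintype.equivFin μ).symm
    have hr' : ∀ i, Pool.Agent.H1.MV.rep G (ω i) = ω i := hr
    refine ⟨Fintype.card μ, fun i => ω (e i), Units.map (TH57.Thr.re e) y, ?_, ?_, ?_⟩
    · intro i j g hg
      have := h1.stab hr' hr' (e i) (e j) g hg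
      exact ⟨this.1, MulAction.mem_stabilizer_iff.2 this.2⟩
    · intro i j g hg
      have := h2.stab hr' hr' (e i) (e j) g hg
      exact ⟨this.1, MulAction.mem_stabilizer_iff.2 this.2⟩
    · apply Pool.Agent.K4H37.MT.zero_of_TT
      exact h3.trans (Pool.Agent.H1.MV.Cl.re e y).symm
  · intro hV n X
    obtain ⟨μ, _, _, ω, y, hr, h1, h2, h3⟩ := key n X
    apply Pool.Agent.K4H37.MT.zero_of_TT
    have hy : TH57.Thr.TT (TH57.Thr.TU G) y :=
      Pool.Agent.H1.MV.tt_block (V := V)
        (fun v n A => Pool.Agent.K4H37.MT.TT_of_zero (hV v n A)) _ μ rfl ω y hr h1 h2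
    have h4 := TH57.Thr.TT_mul _ _ _ h3
      (Pool.Agent.K4H37.MT.TT_blockSum (TH57.Thr.TT_one _) hy)
    rw [Pool.Agent.K4H37.MT.blockSum_mul, mul_one, inv_mul_cancel,
      Pool.Agent.K4H37.MT.blockSum_one] at h4
    exact TH57.Thr.TT_unst _ _ h4

end Pool.Agent.Results.MP_8f66f0_al.TreeActions
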