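import Pool.Agent.H1.FH.Over2

/-!
# Whitehead groups, trees, colimits and extensions

Let `𝒲` be the class of the groups `G` such that the Whitehead groups of all subgroups of the groups
`G × ℤⁿ` are zero. It contains the free abelian groups of finite rank and it is closed under
embeddings, products with free abelian groups of finite rank and directed colimits with arbitrary
structure maps. The main result is about arbitrary actions of a group `G` on trees without inversions:
it reduces the question whether `G` is in `𝒲` to the stabilisers of the vertices and to subgroups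
`⟨Q, g⟩` which are generated by the pointwise stabiliser `Q` of a segment of a ray, which can be chosen
as long as one likes, and one element `g` which translates this segment along the ray by `d` steps.
These subgroups need not be considered if `Q` is trivial or if the group rings of `Q × ℤᵐ` are regular
coherent. There are no conditions on the stabilisers of the edges besides that they are in `𝒲`.

The fibered class `𝒱` consists of the groups `B` such that a group `G` with a homomorphism to `B` is
in `𝒲` as soon as the preimages of the *cyclic* subgroups of `B` are in `𝒲`. It contains the cyclic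
groups and the torsion-free nilpotent groups, its torsion-free members are in `𝒲`, and it is closed
under embeddings, directed colimits, actions on trees, products of torsion-free groups, extensions in
which only the preimages of cyclic subgroups have to be considered and torsion-free central extensions.
If a torsion-free group `G` acts on a tree and has a homomorphism to a group in `𝒱` which is injective
on the stabilisers of the edges (or of long segments) then `G` is in `𝒲` as soon as the stabilisers of
the vertices are in `𝒲`; no condition on translations is needed.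

The proof for homomorphisms to `ℤ²` is an algebraic version of the method of Farrell and Hsiang which
works directly with invertible matrices: for an invertible matrix `X` over `ℤG` and a prime `p` (here
`2` and `3` are enough) the class `pᵏ [X]` is induced from subgroups of finite index which lie over
sublattices of large index, and there the matrix is controlled over a long circle. The relations between
the induced classes come from integral representations of `(ℤ/p)²`.
-/

set_option autoImplicit false

namespace Pool.Agent.Results.MP_8f66f0_al.TreesAndTranslations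

open Matrix

/-- The class in the Whitehead group of the invertible matrix `A` over `ℤG` is zero: stabilised by an
identity block, `A` is `± g` on one diagonal entry times a product of commutators of invertible
matrices (the form of the frozen statement). -/
def ZeroInWh {G : Type} [Group G] {κ : Type} [Fintype κ] [DecidableEq κ]
    (A : (Matrix κ κ (MonoidAlgebra ℤ G))ˣ) : Prop :=
  ∃ (m : ℕ) (g : G) (ε : ℤˣ)
    (C : (Matrix (κ ⊕ Fin (m + 1)) (κ ⊕ Fin (m + 1)) (MonoidAlgebra ℤ G))ˣ),
    C ∈ commutator (Matrix (κ ⊕ Fin (m + 1)) (κ ⊕ Fin (m + 1)) (MonoidAlgebra ℤ G))ˣ ∧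
    Matrix.fromBlocks A.val 0 0 (1 : Matrix (Fin (m + 1)) (Fin (m + 1)) (MonoidAlgebra ℤ G)) =
      Matrix.diagonal (fun i : κ ⊕ Fin (m + 1) =>
          if i = Sum.inr (0 : Fin (m + 1)) then
            (MonoidAlgebra.single g ((ε : ℤ)) : MonoidAlgebra ℤ G) else 1) * C.val

/-- The Whitehead group of `G` is zero. -/
def WhZero (G : Type) [Group G] : Prop :=
  ∀ (n : ℕ) (A : (Matrix (Fin n) (Fin n) (MonoidAlgebra ℤ G))ˣ), ZeroInWh A

/-- The class `𝒲`: the Whitehead groups of all subgroups of the groups `G × ℤⁿ` are zero. -/
def ClassW (G : Type) [Group G] : Prop :=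
  ∀ (n : ℕ) (H : Subgroup (G × Multiplicative (Fin n → ℤ))), WhZero H

/-- The class `𝒱`: each group `G` with a homomorphism `f` to `B` such that the preimages of the
cyclic subgroups of `B` are in `𝒲` is itself in `𝒲`. -/
def ClassV (B : Type) [Group B] : Prop :=
  ∀ (G : Type) [Group G] (f : G →* B),
    (∀ C : Subgroup B, IsCyclic C → ClassW (C.comap f)) → ClassW G

/-- The group is torsion-free. -/
def TorsionFree (G : Type) [Group G] : Prop :=
  ∀ g : G, IsOfFinOrder g → g = 1

/-- The group `G` is the directed colimit of the groups `H i`, `i` in `I`, along the homomorphisms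
`f i j`, which need not be injective; the maps to the colimit are the homomorphisms `φ i`. -/
structure DirectedColimit {I : Type} [Preorder I] (H : I → Type) [∀ i, Group (H i)]
    (f : ∀ i j, i ≤ j → H i →* H j) {G : Type} [Group G] (φ : ∀ i, H i →* G) : Prop where
  nonempty : Nonempty I
  directed : ∀ i j : I, ∃ l, i ≤ l ∧ j ≤ l
  trans : ∀ (i j l : I) (h : i ≤ j) (h' : j ≤ l) (x : H i),
    f j l h' (f i j h x) = f i l (h.trans h') x
  comp : ∀ (i j : I) (h : i ≤ j) (x : H i), φ j (f i j h x) = φ i x
  surj : ∀ g : G, ∃ (i : I) (x : H i), φ i x = g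
  inj : ∀ (i : I) (x : H i), φ i x = 1 → ∃ (j : I) (h : i ≤ j), f i j h x = 1

/-- The module `M` has a resolution of length at most `n` by finitely generated projective modules,
all of which except perhaps the last one are free. -/
def HasResolution (R : Type) [Ring R] : ∀ (_ : ℕ) (M : Type) [AddCommGroup M] [Module R M], Prop
  | 0, M, _, _ => Module.Finite R M ∧ Module.Projective R M
  | n + 1, M, _, _ => ∃ (ι : Type) (_ : Fintype ι) (f : (ι → R) →ₗ[R] M),
      Function.Surjective f ∧ HasResolution R n (LinearMap.ker f)

/-- The ring `R` is (left) regular coherent: every finitely presented left module has a finite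
resolution by finitely generated projective modules. -/
def RegularCoherent (R : Type) [Ring R] : Prop :=
  ∀ (M : Type) [AddCommGroup M] [Module R M] [Module.FinitePresentation R M],
    ∃ n, HasResolution R n M

/-- A ray: an infinite path without backtracking. -/
def IsRay {V : Type} (T : SimpleGraph V) (p : ℕ → V) : Prop :=
  (∀ i, T.Adj (p i) (p (i + 1))) ∧ ∀ i, p (i + 2) ≠ p i

/-- The pointwise stabiliser of the initial segment `p 0, …, p n` of a ray. -/
def segmentStabilizer (G : Type) [Group G] {V : Type} [MulAction G V] (p : ℕ → V) (n : ℕ) :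
    Subgroup G :=
  fixingSubgroup G (p '' Set.Iic n)

/-- The action of `G` on the vertices of the tree `T` is by graph automorphisms and without
inversions. -/
structure TreeAction (G : Type) [Group G] {V : Type} [MulAction G V] (T : SimpleGraph V) :
    Prop where
  tree : T.IsTree
  adj : ∀ (g : G) (v w : V), T.Adj v w → T.Adj (g • v) (g • w)
  noInversion : ∀ (g : G) (v w : V), T.Adj v w → ¬ (g • v = w ∧ g • w = v)

/-- The group rings of the groups `H × ℤᵐ` are regular coherent. -/
def CoherentGroup (H : Type) [Group H] : Prop :=
  ∀ m : ℕ, RegularCoherent (MonoidAlgebra ℤ (H × Multiplicative (Fin m → ℤ)))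

/-- The ray `p` and the number `n` satisfy the condition on translations by `d` steps for the
property `W` of groups: for all `g` with `g (p (i + d)) = p i` for `i ≤ n` the subgroup generated by
the pointwise stabiliser of `p 0, …, p n` and `g` has the property. -/
def TranslationsIn (W : ∀ (G : Type) [Group G], Prop) (G : Type) [Group G] {V : Type}
    [MulAction G V] (p : ℕ → V) (n d : ℕ) : Prop :=
  ∀ g : G, (∀ i ≤ n, g • p (i + d) = p i) →
    W (Subgroup.closure ((segmentStabilizer G p n : Set G) ∪ {g}))

section proofs

open Pool.Agent.H1.MV Pool.Agent.H1.KK Pool.Agent.H1.FH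

theorem HasResolution.fpd {R : Type} [Ring R] {n : ℕ} : ∀ {M : Type} [AddCommGroup M] [Module R M]
    (_ : HasResolution R n M), FPD R n M := by
  induction n with
  | zero =>
    intro M _ _ h
    exact h
  | succ n ih =>
    intro M _ _ h
    obtain ⟨ι, _, f, hf, hk⟩ := h
    exact ⟨ι, inferInstance, f, hf, ih hk⟩

theorem nice_of {R : Type} [Ring R] (h : RegularCoherent R) : Nice R := by
  apply Pool.Agent.H1.MV.RegularCoherent.nice
  intro M _ _ _
  obtain ⟨d, hd⟩ := h M
  exact ⟨d, hd.fpd⟩

theorem segmentStabilizer_eq (G : Type) [Group G] {V : Type} [MulAction G V] (p : ℕ → V) (n : ℕ) :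
    segmentStabilizer G p n = Fx G n p := by
  ext g
  unfold segmentStabilizer
  rw [mem_fixingSubgroup_iff]
  constructor
  · intro h i hi
    exact h _ ⟨i, hi, rfl⟩
  · rintro h _ ⟨i, hi, rfl⟩
    exact h i hi

theorem whZero_iff (G : Type) [Group G] : WhZero G ↔ WhT G :=
  ⟨fun h n A => Pool.Agent.K4H37.MT.TT_of_zero (h n A),
    fun h n A => Pool.Agent.K4H37.MT.zero_of_TT (h n A)⟩

theorem w_iff (G : Type) [Group G] : ClassW G ↔ St (fun G _ => WhT G) G :=
  forall_congr' fun _ => forall_congr' fun H => whZero_iff H

theorem v_iff (B : Type) [Group B] : ClassV B ↔ Fy (St (fun G _ => WhT G)) B := by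
  constructor
  · intro h G _ f hf
    exact (w_iff G).1 (h G f fun A hA => (w_iff _).2 (hf A hA))
  · intro h G _ f hf
    exact (w_iff G).2 (h G f fun A hA => (w_iff _).1 (hf A hA))

theorem tf_iff (G : Type) [Group G] : TorsionFree G ↔ TF G := by
  constructor
  · intro h x n hn hx
    exact h x (isOfFinOrder_iff_pow_eq_one.2 ⟨n, hn, hx⟩)
  · intro h x hx
    obtain ⟨n, hn, hx⟩ := isOfFinOrder_iff_pow_eq_one.1 hx
    exact h x n hn hx

theorem colim_iff {I : Type} [Preorder I] {H : I → Type} [∀ i, Group (H i)]
    {f : ∀ i j, i ≤ j → H i →* H j} {G : Type} [Group G] {φ : ∀ i, H i →* G}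
    (h : DirectedColimit H f φ) : DC H f φ :=
  ⟨h.nonempty, h.directed, h.trans, h.comp, h.surj, h.inj⟩

end proofs

open Pool.Agent.H1.MV Pool.Agent.H1.KK Pool.Agent.H1.FH in
/-- **Whitehead groups, trees, colimits and extensions.** Let `𝒲` be the class of the groups `G`
such that the Whitehead groups of all subgroups of the groups `G × ℤⁿ` are zero, and let `𝒱` be the
class of the groups `B` such that each group `G` with a homomorphism `f` to `B` for which the preimages
of the cyclic subgroups of `B` are in `𝒲` is itself in `𝒲`.

(1) The class `𝒲` is closed under embeddings and directed colimits with arbitrary structure maps.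

(2) Let `G` act on a tree `T` by graph automorphisms and without inversions. Then `G` is in `𝒲` if
and only if the stabilisers of the vertices are in `𝒲` and for each ray `p` and each `d > 0` there is
`n` such that the pointwise stabiliser `Q` of `p 0, …, p n` is trivial, or the group rings of
`Q × ℤᵐ` are regular coherent for all `m`, or for all elements `g` of `G` with `g (p (i + d)) = p i`
for `i ≤ n` the subgroup generated by `Q` and `g` is in `𝒲`.

(3) Cyclic groups and torsion-free nilpotent groups are in `𝒱`. Torsion-free groups in `𝒱` are in `𝒲`.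
If `A` is in `𝒲` and `B` is in `𝒱` and torsion-free then `A × B` is in `𝒲`. The class `𝒱` is closed
under embeddings; products of torsion-free groups; directed colimits `G` of groups `H i` such that the
kernels of the homomorphisms `H i → G` are torsion-free; extensions: if `f : B → L` is a homomorphism
such that `L` and the preimages of the cyclic subgroups of `L` are in `𝒱` then `B` is in `𝒱`; central
extensions: if `B` is torsion-free and `f : B → L` is a homomorphism with central kernel and `L` is in
`𝒱` then `B` is in `𝒱`.

(4) Let `G` act on a tree `T` by graph automorphisms and without inversions. Then `G` is in `𝒱` if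
and only if the stabilisers of the vertices are in `𝒱` and for each ray `p` and each `d > 0` there is
`n` such that for all elements `g` of `G` with `g (p (i + d)) = p i` for `i ≤ n` the subgroup generated
by the pointwise stabiliser of `p 0, …, p n` and `g` is in `𝒱`.

(5) Let `G` be torsion-free and let it act on a tree `T` by graph automorphisms and without inversions.
Let `f` be a homomorphism from `G` to a group `B` in `𝒱` such that for each ray `p` there is `n` such
that `f` is injective on the pointwise stabiliser of `p 0, …, p n`. Then `G` is in `𝒲` (in `𝒱`) if and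
only if the stabilisers of the vertices are in `𝒲` (in `𝒱`).

(6) Let `f` be a homomorphism from `G` to a group `B` in `𝒱` such that the group rings of
`ker f × ℤᵐ` are regular coherent for all `m` and the preimages of the finite cyclic subgroups of `B`
are in `𝒲`. Then `G` is in `𝒲`. -/
theorem result :
    ((∀ (G H : Type) [Group G] [Group H] (f : G →* H), Function.Injective f →
        ClassW H → ClassW G) ∧
      (∀ (I : Type) [Preorder I] (H : I → Type) [∀ i, Group (H i)]
        (f : ∀ i j, i ≤ j → H i →* H j) (G : Type) [Group G] (φ : ∀ i, H i →* G),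
        DirectedColimit H f φ → (∀ i, ClassW (H i)) → ClassW G)) ∧
    (∀ (G V : Type) [Group G] [MulAction G V] (T : SimpleGraph V), TreeAction G T →
      (ClassW G ↔
        (∀ v : V, ClassW (MulAction.stabilizer G v)) ∧
        ∀ p : ℕ → V, IsRay T p → ∀ d : ℕ, 0 < d → ∃ n,
          segmentStabilizer G p n = ⊥ ∨
          CoherentGroup (segmentStabilizer G p n) ∨ TranslationsIn ClassW G p n d)) ∧
    ((∀ (G : Type) [Group G], IsCyclic G → ClassV G) ∧
      (∀ (G : Type) [Group G], Group.IsNilpotent G → TorsionFree G → ClassV G) ∧
      (∀ (G : Type) [Group G], ClassV G → TorsionFree G → ClassW G) ∧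
      (∀ (A B : Type) [Group A] [Group B], ClassW A → ClassV B → TorsionFree B →
        ClassW (A × B)) ∧
      (∀ (G H : Type) [Group G] [Group H] (f : G →* H), Function.Injective f →
        ClassV H → ClassV G) ∧
      (∀ (A B : Type) [Group A] [Group B], ClassV A → TorsionFree A → ClassV B → TorsionFree B →
        ClassV (A × B)) ∧
      (∀ (I : Type) [Preorder I] (H : I → Type) [∀ i, Group (H i)]
        (f : ∀ i j, i ≤ j → H i →* H j) (G : Type) [Group G] (φ : ∀ i, H i →* G),
        DirectedColimit H f φ → (∀ i : I, TorsionFree (φ i).ker) → (∀ i, ClassV (H i)) →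
        ClassV G) ∧
      (∀ (B L : Type) [Group B] [Group L] (f : B →* L), ClassV L →
        (∀ C : Subgroup L, IsCyclic C → ClassV (C.comap f)) → ClassV B) ∧
      (∀ (B L : Type) [Group B] [Group L] (f : B →* L), f.ker ≤ Subgroup.center B →
        TorsionFree B → ClassV L → ClassV B)) ∧
    (∀ (G V : Type) [Group G] [MulAction G V] (T : SimpleGraph V), TreeAction G T →
      (ClassV G ↔
        (∀ v : V, ClassV (MulAction.stabilizer G v)) ∧
        ∀ p : ℕ → V, IsRay T p → ∀ d : ℕ, 0 < d → ∃ n, TranslationsIn ClassV G p n d)) ∧
    (∀ (G V : Type) [Group G] [MulAction G V] (T : SimpleGraph V), TreeAction G T →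
      TorsionFree G → ∀ (B : Type) [Group B] (f : G →* B), ClassV B →
      (∀ p : ℕ → V, IsRay T p → ∃ n, ∀ g ∈ segmentStabilizer G p n, f g = 1 → g = 1) →
      ((ClassW G ↔ ∀ v : V, ClassW (MulAction.stabilizer G v)) ∧
        (ClassV G ↔ ∀ v : V, ClassV (MulAction.stabilizer G v)))) ∧
    (∀ (G B : Type) [Group G] [Group B] (f : G →* B), ClassV B →
      CoherentGroup f.ker → (∀ C : Subgroup B, IsCyclic C → Finite C → ClassW (C.comap f)) →
      ClassW G) := by
  have hB := base_wh
  have hBP := basep_wh
  have hW := hB.tcls
  have hP := hBP.tclsp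
  have subW : ∀ (G H : Type) [Group G] [Group H] (f : G →* H), Function.Injective f →
      ClassW H → ClassW G := fun G H _ _ f hf h => (w_iff G).2 (hW.inj G H f hf ((w_iff H).1 h))
  have subV : ∀ (G H : Type) [Group G] [Group H] (f : G →* H), Function.Injective f →
      ClassV H → ClassV G := fun G H _ _ f hf h => (v_iff G).2 (hP.fy_inj f hf ((v_iff H).1 h))
  refine ⟨⟨subW, ?_⟩, ?_, ⟨?_, ?_, ?_, ?_, subV, ?_, ?_, ?_, ?_⟩, ?_, ?_, ?_⟩
  · intro I _ H _ f G _ φ h hA
    exact (w_iff _).2 (hW.colim I H f G φ (colim_iff h) fun i => (w_iff _).1 (hA i))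
  · rintro G V _ _ T ⟨hT, hact, hinv⟩
    constructor
    · intro h
      have hs : ∀ S : Subgroup G, ClassW S := fun S => subW S G S.subtype S.subtype_injective h
      refine ⟨fun v => hs _, ?_⟩
      intro p _ d _
      exact ⟨0, Or.inr (Or.inr fun g _ => hs _)⟩
    · rintro ⟨hV, hm⟩
      rw [w_iff]
      refine hB.st_tree hT hact hinv (fun v => (w_iff _).1 (hV v)) ?_
      intro p h1 h2 d hd
      obtain ⟨n, hn⟩ := hm p ⟨h1, h2⟩ d hd
      refine ⟨n, ?_⟩
      unfold TranslationsIn at hn
      rw [segmentStabilizer_eq] at hn
      rcases hn with hn | hn | hn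
      · exact Or.inl hn
      · exact Or.inr (Or.inl fun m => nice_of (hn m))
      · exact Or.inr (Or.inr fun g hg => (w_iff _).1 (hn g hg))
  · intro G _ h
    exact (v_iff G).2 (hP.fy_cyc h)
  · intro G _ h1 h2
    exact (v_iff G).2 (hP.fy_nilpotent ((tf_iff G).1 h2))
  · intro G _ h h2
    exact (w_iff G).2 (hP.fy_self ((v_iff G).1 h) ((tf_iff G).1 h2))
  · intro A B _ _ hA hB' h2
    exact (w_iff _).2 (hP.fy_prodW ((w_iff A).1 hA) ((v_iff B).1 hB') ((tf_iff B).1 h2))
  · intro A B _ _ hA h1 hB' h2
    exact (v_iff _).2 (hP.fy_prod ((v_iff A).1 hA) ((tf_iff A).1 h1) ((v_iff B).1 hB')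
      ((tf_iff B).1 h2))
  · intro I _ H _ f G _ φ h htf hA
    refine (v_iff _).2 (hP.fy_colim (colim_iff h) ?_ fun i => (v_iff _).1 (hA i))
    intro i x n hn hx hφ
    exact congrArg Subtype.val ((tf_iff _).1 (htf i) ⟨x, MonoidHom.mem_ker.2 hφ⟩ n hn
      (Subtype.ext hx))
  · intro B L _ _ f hL hA
    exact (v_iff _).2 (hP.fy_ext f ((v_iff L).1 hL) fun A h => (v_iff _).1 (hA A h))
  · intro B L _ _ f hf h1 hL
    exact (v_iff _).2 (hP.fy_central ((tf_iff B).1 h1) f hf ((v_iff L).1 hL))
  · rintro G V _ _ T ⟨hT, hact, hinv⟩
    constructor
    · intro h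
      have hs : ∀ S : Subgroup G, ClassV S := fun S => subV S G S.subtype S.subtype_injective h
      exact ⟨fun v => hs _, fun p _ d _ => ⟨0, fun g _ => hs _⟩⟩
    · rintro ⟨hV, hm⟩
      rw [v_iff]
      refine hP.fy_tree hT hact hinv (fun v => (v_iff _).1 (hV v)) ?_
      intro p h1 h2 d hd
      obtain ⟨n, hn⟩ := hm p ⟨h1, h2⟩ d hd
      refine ⟨n, ?_⟩
      unfold TranslationsIn at hn
      rw [segmentStabilizer_eq] at hn
      exact fun g hg => (v_iff _).1 (hn g hg)
  · rintro G V _ _ T ⟨hT, hact, hinv⟩ htf B _ f hVB hf
    have hf' : ∀ p : ℕ → V, (∀ i, T.Adj (p i) (p (i + 1))) → (∀ i, p (i + 2) ≠ p i) →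
        ∃ n, ∀ x ∈ Fx G n p, f x = 1 → x = 1 := by
      intro p h1 h2
      obtain ⟨n, hn⟩ := hf p ⟨h1, h2⟩
      rw [segmentStabilizer_eq] at hn
      exact ⟨n, hn⟩
    constructor
    · constructor
      · intro h v
        exact subW _ G (MulAction.stabilizer G v).subtype (Subgroup.subtype_injective _) h
      · intro h
        exact (w_iff _).2 (hP.ovr ((v_iff B).1 hVB) hT hact hinv (fun v => (w_iff _).1 (h v))
          ((tf_iff G).1 htf) f hf')
    · constructor
      · intro h v
        exact subV _ G (MulAction.stabilizer G v).subtype (Subgroup.subtype_injective _) h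
      · intro h
        exact (v_iff _).2 (hP.fy_ovr ((v_iff B).1 hVB) hT hact hinv (fun v => (v_iff _).1 (h v))
          ((tf_iff G).1 htf) f hf')
  · intro G B _ _ f hVB hN hfin
    exact (w_iff _).2 (hBP.nice_ker ((v_iff B).1 hVB) f (fun m => nice_of (hN m))
      fun C h1 h2 => (w_iff _).1 (hfin C h1 h2))

end Pool.Agent.Results.MP_8f66f0_al.TreesAndTranslations
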